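import Pool.Agent.helper22.RG9.Spec

set_option autoImplicit false

namespace Pool.Agent.RG9

open Matrix Pool.Agent.H48SL Pool.Agent.UG

noncomputable section

theorem QUN_det {K V G : Type} [Field K] [AddCommGroup V] [Module K V] [FiniteDimensional K V] [Group G] (T : G →* Module.End K V)
    (x y c : G) (hc : c = x * y * x⁻¹ * y⁻¹) (hx : c * x = x * c) (hy : c * y = y * c) (μ : K) :
    μ ^ Module.finrank K (Module.End.eigenspace (T c) μ) = 1 := by
  have hZ : ∀ g : Subgroup.centralizer ({c} : Set G), ∀ v ∈ Module.End.eigenspace (T c) μ, T (g : G) v ∈ Module.End.eigenspace (T c) μ := by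
    intro g v hv
    have hg : c * (g : G) = g * c := (Subgroup.mem_centralizer_iff.mp g.2) c (Set.mem_singleton c)
    rw [Module.End.mem_eigenspace_iff] at hv ⊢
    have e1 : T c (T (g : G) v) = T (c * (g : G)) v := by rw [map_mul]; rfl
    have e2 : T ((g : G) * c) v = T (g : G) (T c v) := by rw [map_mul]; rfl
    rw [e1, hg, e2, hv, map_smul]
  let R : Subgroup.centralizer ({c} : Set G) →* Module.End K (Module.End.eigenspace (T c) μ) :=
    { toFun := fun g => (T (g : G)).restrict (hZ g)
      map_one' := by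
        ext v
        rw [LinearMap.restrict_apply]
        show T ((1 : Subgroup.centralizer ({c} : Set G)) : G) (v : V) = v
        rw [OneMemClass.coe_one, map_one]
        rfl
      map_mul' := by
        intro g h
        ext v
        rw [LinearMap.restrict_apply]
        show T ((g * h : Subgroup.centralizer ({c} : Set G)) : G) (v : V) = T (g : G) (T (h : G) v)
        rw [Subgroup.coe_mul, map_mul]
        rfl }
  have mx : x ∈ Subgroup.centralizer ({c} : Set G) := by
    rw [Subgroup.mem_centralizer_iff]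
    intro h hh
    rw [Set.mem_singleton_iff.mp hh]
    exact hx
  have my : y ∈ Subgroup.centralizer ({c} : Set G) := by
    rw [Subgroup.mem_centralizer_iff]
    intro h hh
    rw [Set.mem_singleton_iff.mp hh]
    exact hy
  have mc : c ∈ Subgroup.centralizer ({c} : Set G) := by
    rw [Subgroup.mem_centralizer_iff]
    intro h hh
    rw [Set.mem_singleton_iff.mp hh]
  let d : Subgroup.centralizer ({c} : Set G) →* K := LinearMap.det.comp R
  have hd : d ⟨c, mc⟩ = 1 := by
    have e : (⟨c, mc⟩ : Subgroup.centralizer ({c} : Set G)) = ⟨x, mx⟩ * ⟨y, my⟩ * ⟨x, mx⟩⁻¹ * ⟨y, my⟩⁻¹ := by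
      apply Subtype.ext
      exact hc
    have e1 : d ⟨x, mx⟩ * d ⟨x, mx⟩⁻¹ = 1 := by rw [← map_mul, mul_inv_cancel, map_one]
    have e2 : d ⟨y, my⟩ * d ⟨y, my⟩⁻¹ = 1 := by rw [← map_mul, mul_inv_cancel, map_one]
    rw [e, map_mul, map_mul, map_mul]
    calc d ⟨x, mx⟩ * d ⟨y, my⟩ * d ⟨x, mx⟩⁻¹ * d ⟨y, my⟩⁻¹ = (d ⟨x, mx⟩ * d ⟨x, mx⟩⁻¹) * (d ⟨y, my⟩ * d ⟨y, my⟩⁻¹) := by ring
      _ = 1 := by rw [e1, e2, mul_one]
  have hR : R ⟨c, mc⟩ = μ • (1 : Module.End K (Module.End.eigenspace (T c) μ)) := by
    ext v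
    show T c (v : V) = μ • (v : V)
    exact Module.End.mem_eigenspace_iff.mp v.2
  have hd2 : d ⟨c, mc⟩ = μ ^ Module.finrank K (Module.End.eigenspace (T c) μ) := by
    show LinearMap.det (R ⟨c, mc⟩) = _
    rw [hR, LinearMap.det_smul, map_one, mul_one]
  rw [← hd2, hd]

theorem QUN_nil {K V : Type} [Field K] [IsAlgClosed K] [AddCommGroup V] [Module K V] [FiniteDimensional K V] (f : Module.End K V) (L : ℕ) 
    (h : ∀ μ : K, f.HasEigenvalue μ → μ ^ L = 1) : IsNilpotent (f ^ L - 1) := by
  have hm : (minpoly K f).Monic := minpoly.monic (Algebra.IsIntegral.isIntegral f)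
  have hs : (minpoly K f).Splits := IsAlgClosed.splits _
  have hprod : minpoly K f = ((minpoly K f).roots.map fun a => Polynomial.X - Polynomial.C a).prod := by
    have := hs.eq_prod_roots
    rw [hm.leadingCoeff, Polynomial.C_1, one_mul] at this
    exact this
  have hdvd : minpoly K f ∣ (Polynomial.X ^ L - 1) ^ (Multiset.card (minpoly K f).roots) := by
    have h1 : ((minpoly K f).roots.map fun a => Polynomial.X - Polynomial.C a).prod ∣ ((minpoly K f).roots.map fun _ => (Polynomial.X ^ L - 1 : Polynomial K)).prod := by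
      refine Multiset.prod_dvd_prod_of_dvd _ _ fun a ha => ?_
      rw [Polynomial.dvd_iff_isRoot]
      have hroot : (minpoly K f).IsRoot a := (Polynomial.mem_roots'.mp ha).2
      have := h a (Module.End.hasEigenvalue_of_isRoot hroot)
      simp [Polynomial.IsRoot, this]
    rw [← hprod, Multiset.map_const', Multiset.prod_replicate] at h1
    exact h1
  refine ⟨Multiset.card (minpoly K f).roots, ?_⟩
  obtain ⟨q, hq⟩ := hdvd
  have := congrArg (Polynomial.aeval f) hq
  rw [map_mul, minpoly.aeval, zero_mul, map_pow, map_sub, map_pow, Polynomial.aeval_X, map_one] at this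
  exact this

theorem QUN : QUN_stmt := by
  intro n x y c hc hx hy
  let K := AlgebraicClosure ℚ
  let ι : MQ n →+* Module.End K (Fin n → K) :=
    ((Matrix.toLinAlgEquiv' (R := K) (n := Fin n)).toRingEquiv.toRingHom).comp (algebraMap ℚ K).mapMatrix
  have hι : Function.Injective ι := by
    have h1 : Function.Injective ((algebraMap ℚ K).mapMatrix : MQ n →+* Matrix (Fin n) (Fin n) K) := by
      intro A B h
      ext i j
      have := congrFun (congrFun h i) j
      exact (algebraMap ℚ K).injective this
    exact (Matrix.toLinAlgEquiv' (R := K) (n := Fin n)).injective.comp h1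
  let T : SLZ n →* Module.End K (Fin n → K) := (ι : MQ n →* Module.End K (Fin n → K)).comp (qgHom n)
  have hroot : ∀ μ : K, (T c).HasEigenvalue μ → μ ^ n.factorial = 1 := by
    intro μ hμ
    have h1 := QUN_det T x y c hc hx hy μ
    have h2 : 0 < Module.finrank K (Module.End.eigenspace (T c) μ) := Module.finrank_pos_iff.mpr (Submodule.nontrivial_iff_ne_bot.mpr hμ)
    have h3 : Module.finrank K (Module.End.eigenspace (T c) μ) ≤ n := by
      have := Submodule.finrank_le (Module.End.eigenspace (T c) μ)
      rwa [Module.finrank_fin_fun] at this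
    obtain ⟨k, hk⟩ := Nat.dvd_factorial h2 h3
    rw [hk, pow_mul, h1, one_pow]
  obtain ⟨N, hN⟩ := QUN_nil (T c) n.factorial hroot
  refine ⟨N, hι ?_⟩
  rw [map_pow, map_sub, map_one, map_zero]
  have e : ι (qg (c ^ n.factorial)) = T c ^ n.factorial := by
    rw [qg_pow, map_pow]
    rfl
  rw [e]
  exact hN

end

end Pool.Agent.RG9
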