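import Pool.Agent.helper22.RG9.Spec2

set_option autoImplicit false

namespace Pool.Agent.RG9

open Matrix Pool.Agent.H48SL Pool.Agent.UG

theorem BR3 (hGR2 : GR2_stmt) (hLGF : LGF_stmt) (hAB2 : AB2_stmt) (hBRA : BRA_stmt) : BR3_stmt := by
  intro n m N hm hN X hX
  obtain ⟨l1, l2, l3, l4, l5, l6, l7, l8⟩ := hLGF n
  have hU := hGR2 n m N hm X hX
  obtain ⟨E, hE⟩ : ∃ E, E = N * n.factorial := ⟨_, rfl⟩
  rw [← hE] at hU ⊢
  have hE1 : E ≠ 0 := by
    rw [hE]
    exact Nat.mul_ne_zero (by omega) n.factorial_ne_zero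
  have hL : (E : ℚ) ≠ 0 := by exact_mod_cast hE1
  have hNQ : (N : ℚ) ≠ 0 := by
    have : N ≠ 0 := by omega
    exact_mod_cast this
  have hab : ∀ i j, i ≠ j → ∀ x ∈ X i j, ∀ y ∈ X i j, x * y = y * x := fun i j hij x hx y hy =>
    hX.comm i j i j hij hij hij.symm hij x hx y hy
  refine ⟨?_, ?_⟩
  · intro i j k l hij hkl hjk hil A hA B hB
    induction hA using Submodule.span_induction with
    | zero => rw [zero_mul, mul_zero]
    | add u v _ _ hu hv => rw [add_mul, mul_add, hu, hv]
    | smul c u _ hu => rw [smul_mul_assoc, mul_smul_comm, hu]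
    | mem A hA =>
      obtain ⟨x, hx, rfl⟩ := hA
      induction hB using Submodule.span_induction with
      | zero => rw [zero_mul, mul_zero]
      | add u v _ _ hu hv => rw [add_mul, mul_add, hu, hv]
      | smul c u _ hu => rw [smul_mul_assoc, mul_smul_comm, hu]
      | mem B hB =>
        obtain ⟨y, hy, rfl⟩ := hB
        have h1 : x * y = y * x := hX.comm i j k l hij hkl hjk hil x hx y hy
        have h2 : x ^ E * y ^ E = y ^ E * x ^ E := ((show Commute x y from h1).pow_pow _ _)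
        have h3 : qg (x ^ E) * qg (y ^ E) = qg (y ^ E) * qg (x ^ E) := by
          rw [← qg_mul, ← qg_mul, h2]
        have h4 := (l1 _ (hU k l hkl y hy)).2.2 _ h3
        exact ((l1 _ (hU i j hij x hx)).2.2 _ h4.symm).symm
  · intro i j k hij hjk hik
    have hc : ∀ x ∈ X i j, ∀ y ∈ X j k, x * y * x⁻¹ * y⁻¹ ∈ X i k ∧
        lg (x ^ E) * lg (y ^ E) - lg (y ^ E) * lg (x ^ E) = (E : ℚ) • lg ((x * y * x⁻¹ * y⁻¹) ^ E) := by
      intro x hx y hy
      have h1 : x * y * x⁻¹ * y⁻¹ ∈ X i k := hX.sub i j k hij hjk hik x hx y hy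
      refine ⟨h1, hBRA n E x y _ rfl ?_ ?_ (hU i j hij x hx) (hU j k hjk y hy) (hU i k hik _ h1)⟩
      · exact hX.comm i k i j hik hij hik.symm hij _ h1 x hx
      · exact hX.comm i k j k hik hjk hjk.symm hik _ h1 y hy
    have hcl : Subgroup.closure {g | ∃ x ∈ X i j, ∃ y ∈ X j k, g = x * y * x⁻¹ * y⁻¹} ≤ X i k := by
      rw [Subgroup.closure_le]
      rintro _ ⟨x, hx, y, hy, rfl⟩
      exact (hc x hx y hy).1
    apply le_antisymm
    · refine Submodule.span_le.2 ?_
      rintro _ ⟨g, hg, rfl⟩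
      have key : ∀ g ∈ Subgroup.closure {g | ∃ x ∈ X i j, ∃ y ∈ X j k, g = x * y * x⁻¹ * y⁻¹}, lg (g ^ E) ∈
          Submodule.span ℚ {C | ∃ A ∈ LE E (X i j), ∃ B ∈ LE E (X j k), C = A * B - B * A} := by
        intro g hg
        induction hg using Subgroup.closure_induction with
        | one =>
          rw [one_pow, l8]
          exact Submodule.zero_mem _
        | mem g hg =>
          obtain ⟨x, hx, y, hy, rfl⟩ := hg
          have h1 := (hc x hx y hy).2
          have h2 : lg ((x * y * x⁻¹ * y⁻¹) ^ E) = (E : ℚ)⁻¹ • (lg (x ^ E) * lg (y ^ E) - lg (y ^ E) * lg (x ^ E)) := by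
            rw [h1, smul_smul, inv_mul_cancel₀ hL, one_smul]
          rw [h2]
          exact Submodule.smul_mem _ _ (Submodule.subset_span ⟨_, Submodule.subset_span ⟨x, hx, rfl⟩, _, Submodule.subset_span ⟨y, hy, rfl⟩, rfl⟩)
        | mul g h hg hh ihg ihh =>
          have hg := hcl hg
          have hh := hcl hh
          have h1 : g * h = h * g := hab i k hik g hg h hh
          have h2 : (g * h) ^ E = g ^ E * h ^ E := (show Commute g h from h1).mul_pow _
          rw [h2, (l2 _ _ (hU i k hik g hg) (hU i k hik h hh) ((show Commute g h from h1).pow_pow _ _)).2]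
          exact Submodule.add_mem _ ihg ihh
        | inv g hg ih =>
          have hg := hcl hg
          rw [inv_pow, (l3 _ (hU i k hik g hg)).2]
          exact Submodule.neg_mem _ ih
      have h5 := key (g ^ N) (hX.pow i j k hij hjk hik g hg)
      have h6 : lg ((g ^ N) ^ E) = (N : ℚ) • lg (g ^ E) := by
        rw [← pow_mul, mul_comm, pow_mul, (l4 _ (hU i k hik g hg) N).2]
      rw [h6] at h5
      have h7 := Submodule.smul_mem _ ((N : ℚ)⁻¹) h5
      rw [smul_smul, inv_mul_cancel₀ hNQ, one_smul] at h7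
      exact h7
    · refine Submodule.span_le.2 ?_
      rintro _ ⟨A, hA, B, hB, rfl⟩
      obtain ⟨a, ha, x, hx, hax⟩ := hAB2 n E (X i j) (hab i j hij) (hU i j hij) A hA
      obtain ⟨b, hb, y, hy, hby⟩ := hAB2 n E (X j k) (hab j k hjk) (hU j k hjk) B hB
      obtain ⟨h1, h2⟩ := hc x hx y hy
      rw [← hax, ← hby] at h2
      have ha' : (a : ℚ) ≠ 0 := by
        have : a ≠ 0 := by omega
        exact_mod_cast this
      have hb' : (b : ℚ) ≠ 0 := by
        have : b ≠ 0 := by omega
        exact_mod_cast this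
      have h3 : A * B - B * A = (((a : ℚ) * b)⁻¹ * E) • lg ((x * y * x⁻¹ * y⁻¹) ^ E) := by
        rw [mul_smul, ← h2, smul_mul_smul_comm, smul_mul_smul_comm, mul_comm (b : ℚ) a, ← smul_sub, smul_smul,
          inv_mul_cancel₀ (mul_ne_zero ha' hb'), one_smul]
      show A * B - B * A ∈ LE E (X i k)
      rw [h3]
      exact Submodule.smul_mem _ _ (Submodule.subset_span ⟨_, h1, rfl⟩)

end Pool.Agent.RG9
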